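import Pool.Agent.J6H28.Nut.OddAll
import Pool.Agent.J6H28.Nut.Conv
import Pool.Agent.J6H77.Nut.OddOrd
import Pool.Agent.J6H77.N18C.All
import Pool.Agent.J6H93.NutE.EvenAll
import Pool.Agent.J6H93.NutE.SmallDeg
import Pool.Agent.J6H93.NG.Small

/-!
# The orders of `ρ`-regular nut graphs

`nutOrders ρ` (file `Pool/Agent/TH296/Nut/Basic.lean`) is the set of all `n` such that there is a
`ρ`-regular nut graph on `n` vertices.
-/

set_option autoImplicit false

namespace Pool.Agent.Results.MP_a38f8e_co.AllDegrees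

open Pool.Agent.TH296.Nut Pool.Agent.J6H28.Nut Pool.Agent.J6H77.Nut Pool.Agent.J6H93.NutE

/-- For every degree `ρ ≥ 5` and every `n`, a `ρ`-regular nut graph on `n` vertices exists if and
only if `n ≥ ρ + 4`, `n ρ` is even and `(ρ, n)` is not one of six exceptional pairs. -/
theorem result : ∀ ρ n : ℕ, 5 ≤ ρ →
    (n ∈ nutOrders ρ ↔ ρ + 4 ≤ n ∧ Even (n * ρ) ∧
      (ρ, n) ∉ ({(6, 10), (6, 11), (8, 13), (9, 14), (10, 14), (14, 18)} : Finset (ℕ × ℕ))) := by
  intro ρ n h5
  simp only [Finset.mem_insert, Finset.mem_singleton, Prod.mk.injEq, not_or]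
  constructor
  · intro h
    refine ⟨lower (by omega) h, even_mul_of_mem h, ?_, ?_, ?_, ?_, ?_, ?_⟩
    · rintro ⟨rfl, rfl⟩
      exact Pool.Agent.J6H93.NG.not_mem_6_10 h
    · rintro ⟨rfl, rfl⟩
      exact Pool.Agent.J6H93.NG.not_mem_6_11 h
    · rintro ⟨rfl, rfl⟩
      exact Pool.Agent.J6H93.NG.not_mem_8_13 h
    · rintro ⟨rfl, rfl⟩
      exact Pool.Agent.J6H93.NG.not_mem_9_14 h
    · rintro ⟨rfl, rfl⟩
      exact Pool.Agent.J6H93.NG.not_mem_10_14 h
    · rintro ⟨rfl, rfl⟩
      exact Pool.Agent.J6H77.N18C.not_mem h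
  · rintro ⟨h1, h2, hex⟩
    have hpar : ρ % 2 = 0 ∨ n % 2 = 0 := by
      rcases Nat.even_mul.1 h2 with h3 | h3
      · right; exact Nat.even_iff.1 h3
      · left; exact Nat.even_iff.1 h3
    by_cases h11 : 11 ≤ ρ
    · rcases Nat.mod_two_eq_zero_or_one ρ with hρ | hρ
      · rcases Nat.mod_two_eq_zero_or_one n with h | h
        · exact even_mem hρ (by omega) h h1 (by omega)
        · exact odd_order hρ (by omega) h (by omega)
      · by_cases h5' : n = ρ + 5
        · rw [h5']
          exact mem_five (by omega)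
        · exact odd_mem hρ h11 (by omega) (by omega)
    · rcases (show ρ = 5 ∨ ρ = 6 ∨ ρ = 7 ∨ ρ = 8 ∨ ρ = 9 ∨ ρ = 10 by omega) with
        rfl | rfl | rfl | rfl | rfl | rfl
      · exact mem5 (by omega) (by omega)
      · exact mem6 (by omega)
      · exact mem7 (by omega) (by omega)
      · exact mem8 (by omega) (by omega)
      · exact mem9 (by omega) (by omega)
      · exact mem10 (by omega)

end Pool.Agent.Results.MP_a38f8e_co.AllDegrees
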